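import Pool.Agent.helper82.LB.Spec1

set_option autoImplicit false

open Matrix Polynomial NumberField Pool.Agent.GO Pool.Agent.RG Pool.Agent.CH

namespace Pool.Agent.LB

/-- transfer of the algebra structure -/
theorem GRE_transfer (M : Type) [Field M] [CharZero M] (A : Algebra ℚ M) (hG : @IsGalois ℚ _ M _ A) :
    @IsGalois ℚ _ M _ DivisionRing.toRatAlgebra := by
  have h : A = DivisionRing.toRatAlgebra := Subsingleton.elim _ _
  subst h
  exact hG

theorem GRE_nf (M : Type) [Field M] (A : Algebra ℚ M) (h : @Module.Finite ℚ M _ _ A.toModule) : NumberField M :=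
  @NumberField.of_module_finite ℚ M _ _ _ A h

theorem GRE_galois (k : Type) [Field k] [CharZero k] : IsGalois k (AlgebraicClosure k) := inferInstance

/-- one more square root -/
theorem GRE_step {Ω : Type} [Field Ω] [Algebra ℚ Ω] [IsGalois ℚ Ω] (L : IntermediateField ℚ Ω) (y : Ω) (hy : y ∉ L)
    (hy2 : y ^ 2 ∈ L) (σ : Ω ≃ₐ[ℚ] Ω) (hσ : σ (y ^ 2) = y ^ 2) :
    ∃ σ' : Ω ≃ₐ[ℚ] Ω, (∀ x ∈ L, σ' x = σ x) ∧ σ' y = -y := by
  by_cases h1 : σ y = -y
  · exact ⟨σ, fun _ _ => rfl, h1⟩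
  have h2 : σ y = y := by
    rw [map_pow] at hσ
    rcases sq_eq_sq_iff_eq_or_eq_neg.mp hσ with h | h
    · exact h
    · exact absurd h h1
  have h3 : ∃ ρ : Ω ≃ₐ[ℚ] Ω, (∀ x ∈ L, ρ x = x) ∧ ρ y ≠ y := by
    by_contra hcon
    push Not at hcon
    apply hy
    rw [← InfiniteGalois.fixedField_fixingSubgroup L, IntermediateField.mem_fixedField_iff]
    intro ρ hρ
    apply hcon ρ
    intro x hx
    rw [IntermediateField.mem_fixingSubgroup_iff] at hρ
    exact hρ x hx
  obtain ⟨ρ, hρ1, hρ2⟩ := h3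
  have h4 : ρ y = -y := by
    have h5 : (ρ y) ^ 2 = y ^ 2 := by
      rw [← map_pow, hρ1 _ hy2]
    rcases sq_eq_sq_iff_eq_or_eq_neg.mp h5 with h | h
    · exact absurd h hρ2
    · exact h
  refine ⟨ρ.trans σ, ?_, ?_⟩
  · intro x hx
    rw [AlgEquiv.trans_apply, hρ1 x hx]
  · rw [AlgEquiv.trans_apply, h4, map_neg, h2]

/-- the automorphism -/
theorem GRE_main {Ω : Type} [Field Ω] [CharZero Ω] [Algebra ℚ Ω] [IsGalois ℚ Ω] (E : Type) [Field E] [NumberField E] (D : Set (𝓞 E))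
    (hD : ∀ (L : Type) [Field L] [NumberField L] (i : E →+* L), ∃ δ ∈ D, ¬ IsSquare (i (δ : E)))
    (δ' : 𝓞 E) (hδ' : δ' ≠ 0) (S₀ : Set Ω) (hS : S₀.Finite)
    (hE : ∀ (τ : E →+* Ω) (x : E), τ x ∈ IntermediateField.adjoin ℚ S₀)
    (hz : ∀ τ : E →+* Ω, ∃ z ∈ IntermediateField.adjoin ℚ S₀, z ^ 2 = τ (δ' : E))
    (hsq : ∀ x : Ω, ∃ y : Ω, y ^ 2 = x) (T : Finset (E →+* Ω)) :
    ∃ (σ : Ω ≃ₐ[ℚ] Ω) (y : (E →+* Ω) → Ω), (∀ x ∈ IntermediateField.adjoin ℚ S₀, σ x = x) ∧
      ∀ τ ∈ T, (∃ δ ∈ D, δ ≠ 0 ∧ y τ ^ 2 = τ ((δ * δ' : 𝓞 E) : E)) ∧ σ (y τ) = - y τ := by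
  classical
  induction T using Finset.induction_on with
  | empty => exact ⟨AlgEquiv.refl, fun _ => 0, fun x _ => rfl, fun τ hτ => absurd hτ (Finset.notMem_empty τ)⟩
  | insert τ₁ T hτ₁ ih =>
    obtain ⟨σ, y, hσ, hy⟩ := ih
    set S : Set Ω := S₀ ∪ y '' (T : Set (E →+* Ω)) with hSdef
    have hSfin : S.Finite := hS.union (T.finite_toSet.image y)
    set L : IntermediateField ℚ Ω := IntermediateField.adjoin ℚ S with hL
    have hL0 : IntermediateField.adjoin ℚ S₀ ≤ L := IntermediateField.adjoin.mono ℚ S₀ S Set.subset_union_left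
    have hLfin : FiniteDimensional ℚ L := by
      have : Finite S := hSfin.to_subtype
      exact IntermediateField.finiteDimensional_adjoin fun x _ => (Algebra.IsAlgebraic.isAlgebraic x).isIntegral
    have hLnf : NumberField L := GRE_nf L L.algebra' hLfin
    -- the embedding into L
    have hmem : ∀ x : E, τ₁ x ∈ L := fun x => hL0 (hE τ₁ x)
    obtain ⟨δ, hδD, hδ⟩ := hD L (τ₁.codRestrict L.toSubring hmem)
    have hδ2 : ∀ w ∈ L, w ^ 2 ≠ τ₁ (δ : E) := by
      intro w hw hw2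
      apply hδ
      refine ⟨⟨w, hw⟩, ?_⟩
      apply Subtype.ext
      show τ₁ (δ : E) = w * w
      rw [← hw2, pow_two]
    have hδ0 : δ ≠ 0 := by
      intro h0
      apply hδ2 0 L.zero_mem
      rw [h0]
      simp
    obtain ⟨w, hw⟩ := hsq (τ₁ ((δ * δ' : 𝓞 E) : E))
    have hmul : ((δ * δ' : 𝓞 E) : E) = (δ : E) * (δ' : E) := rfl
    have hwL : w ∉ L := by
      intro hwL
      obtain ⟨z, hzL, hz2⟩ := hz τ₁
      have hz0 : z ≠ 0 := by
        intro h0
        rw [h0] at hz2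
        have h1 : τ₁ (δ' : E) = 0 := by rw [← hz2]; simp
        rw [map_eq_zero] at h1
        apply hδ'
        exact_mod_cast h1
      apply hδ2 (w / z) (L.div_mem hwL (hL0 hzL))
      rw [div_pow, hw, hz2, hmul, map_mul]
      have h1 : τ₁ (δ' : E) ≠ 0 := by
        rw [← hz2]; exact pow_ne_zero 2 hz0
      field_simp
    have hw2L : w ^ 2 ∈ L := by rw [hw]; exact hmem _
    have hσw : σ (w ^ 2) = w ^ 2 := by rw [hw]; exact hσ _ (hE τ₁ _)
    obtain ⟨σ', hσ'1, hσ'2⟩ := GRE_step L w hwL hw2L σ hσw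
    refine ⟨σ', Function.update y τ₁ w, ?_, ?_⟩
    · intro x hx
      rw [hσ'1 x (hL0 hx), hσ x hx]
    · intro τ hτ
      by_cases hτ1 : τ = τ₁
      · subst hτ1
        rw [Function.update_self]
        exact ⟨⟨δ, hδD, hδ0, hw⟩, hσ'2⟩
      · have hτT : τ ∈ T := by
          rcases Finset.mem_insert.mp hτ with h | h
          · exact absurd h hτ1
          · exact h
        rw [Function.update_of_ne hτ1]
        refine ⟨(hy τ hτT).1, ?_⟩
        have hyL : y τ ∈ L := IntermediateField.subset_adjoin ℚ S (Set.mem_union_right _ (Set.mem_image_of_mem y hτT))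
        rw [hσ'1 _ hyL, (hy τ hτT).2]

/-- the theorem with an algebraically closed field -/
theorem GRE_fin {Ω : Type} [Field Ω] [CharZero Ω] [Algebra ℚ Ω] [IsAlgClosed Ω] [IsGalois ℚ Ω] (E : Type) [Field E] [NumberField E] (D : Set (𝓞 E))
    (hD : ∀ (L : Type) [Field L] [NumberField L] (i : E →+* L), ∃ δ ∈ D, ¬ IsSquare (i (δ : E))) :
    ∃ (M : Type) (_ : Field M) (_ : NumberField M) (_ : IsGalois ℚ M) (σ : M ≃ₐ[ℚ] M), Nonempty (E →+* M) ∧
    (∀ (τ : E →+* M) (x : E), σ (τ x) = τ x) ∧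
    ∀ τ : E →+* M, ∃ δ ∈ D, ∃ δ' ∈ D, δ ≠ 0 ∧ δ' ≠ 0 ∧
      ∃ y : 𝓞 M, y ^ 2 = RingOfIntegers.mapRingHom τ (δ * δ') ∧ σ (y : M) = -(y : M) := by
  classical
  -- a nonzero element of D
  obtain ⟨δ', hδ'D, hδ'⟩ := hD E (RingHom.id E)
  have hδ'0 : δ' ≠ 0 := by
    intro h0
    apply hδ'
    rw [h0]
    exact ⟨0, by simp⟩
  obtain ⟨θ, hθ⟩ := Field.exists_primitive_element ℚ E
  have hsq : ∀ x : Ω, ∃ y : Ω, y ^ 2 = x := fun x => IsAlgClosed.exists_pow_nat_eq x (by norm_num)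
  choose z hz using fun τ : E →+* Ω => hsq (τ (δ' : E))
  set S₀ : Set Ω := Set.range (fun τ : E →+* Ω => τ θ) ∪ Set.range z with hS₀
  have hSfin : S₀.Finite := (Set.finite_range _).union (Set.finite_range _)
  have hE : ∀ (τ : E →+* Ω) (x : E), τ x ∈ IntermediateField.adjoin ℚ S₀ := by
    intro τ x
    have h1 : x ∈ (⊤ : IntermediateField ℚ E) := IntermediateField.mem_top
    rw [← hθ] at h1
    have h2 : IntermediateField.adjoin ℚ {θ} ≤ (IntermediateField.adjoin ℚ S₀).comap τ.toRatAlgHom := by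
      rw [IntermediateField.adjoin_simple_le_iff]
      exact IntermediateField.subset_adjoin ℚ S₀ (Set.mem_union_left _ ⟨τ, rfl⟩)
    exact h2 h1
  have hzz : ∀ τ : E →+* Ω, ∃ z ∈ IntermediateField.adjoin ℚ S₀, z ^ 2 = τ (δ' : E) := fun τ =>
    ⟨z τ, IntermediateField.subset_adjoin ℚ S₀ (Set.mem_union_right _ ⟨τ, rfl⟩), hz τ⟩
  obtain ⟨σ, y, hσ, hy⟩ := GRE_main E D hD δ' hδ'0 S₀ hSfin hE hzz hsq Finset.univ
  -- the field M
  set S : Set Ω := S₀ ∪ Set.range y with hSdef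
  have hSf : S.Finite := hSfin.union (Set.finite_range _)
  have : Finite S := hSf.to_subtype
  set M : FiniteGaloisIntermediateField ℚ Ω := FiniteGaloisIntermediateField.adjoin ℚ S with hM
  have hSM : S ⊆ M.toIntermediateField := FiniteGaloisIntermediateField.subset_adjoin ℚ S
  have hS₀M : IntermediateField.adjoin ℚ S₀ ≤ M.toIntermediateField := by
    rw [IntermediateField.adjoin_le_iff]
    exact Set.Subset.trans Set.subset_union_left hSM
  have hMnf : NumberField M.toIntermediateField := GRE_nf M.toIntermediateField M.toIntermediateField.algebra' M.finiteDimensional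
  have hgal' : IsGalois ℚ M.toIntermediateField := GRE_transfer M.toIntermediateField M.toIntermediateField.algebra' M.isGalois
  have hgal2 := M.isGalois
  set σM := AlgEquiv.restrictNormal σ M.toIntermediateField with hσM
  have hσMa : ∀ x : M.toIntermediateField, ((σM x : M.toIntermediateField) : Ω) = σ x := fun x =>
    AlgEquiv.restrictNormal_apply M.toIntermediateField σ x
  refine ⟨M.toIntermediateField, inferInstance, hMnf, hgal', AlgEquiv.ofRingEquiv (f := (σM : M.toIntermediateField ≃+* M.toIntermediateField)) (fun r => by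
    simp), ?_, ?_, ?_⟩
  · obtain ⟨τ⟩ := (inferInstance : Nonempty (E →+* Ω))
    exact ⟨τ.codRestrict M.toIntermediateField.toSubring (fun x => hS₀M (hE τ x))⟩
  · intro τ x
    apply Subtype.ext
    show ((σM (τ x) : M.toIntermediateField) : Ω) = ((τ x : M.toIntermediateField) : Ω)
    rw [hσMa]
    exact hσ _ (hE ((algebraMap M.toIntermediateField Ω).comp τ) x)
  · intro τ
    obtain ⟨⟨δ, hδD, hδ0, hy2⟩, hσy⟩ := hy ((algebraMap M.toIntermediateField Ω).comp τ) (Finset.mem_univ _)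
    have hyM : y ((algebraMap M.toIntermediateField Ω).comp τ) ∈ M.toIntermediateField := hSM (Set.mem_union_right _ ⟨_, rfl⟩)
    have hsq2 : (⟨y ((algebraMap M.toIntermediateField Ω).comp τ), hyM⟩ : M.toIntermediateField) ^ 2 = τ ((δ * δ' : 𝓞 E) : E) := by
      apply Subtype.ext
      show y ((algebraMap M.toIntermediateField Ω).comp τ) ^ 2 = ((τ ((δ * δ' : 𝓞 E) : E) : M.toIntermediateField) : Ω)
      rw [hy2]
      rfl
    have hint : IsIntegral ℤ (⟨y ((algebraMap M.toIntermediateField Ω).comp τ), hyM⟩ : M.toIntermediateField) := by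
      apply IsIntegral.of_pow (n := 2) (by norm_num)
      rw [hsq2]
      exact map_isIntegral_int τ (RingOfIntegers.isIntegral_coe (δ * δ'))
    refine ⟨δ, hδD, δ', hδ'D, hδ0, hδ'0, ⟨_, hint⟩, ?_, ?_⟩
    · apply RingOfIntegers.ext
      exact hsq2
    · apply Subtype.ext
      show ((σM (⟨y ((algebraMap M.toIntermediateField Ω).comp τ), hyM⟩ : M.toIntermediateField) : M.toIntermediateField) : Ω) =
        -(y ((algebraMap M.toIntermediateField Ω).comp τ))
      rw [hσMa]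
      exact hσy

theorem GRE : GRE_stmt := by
  intro E _ _ D hD
  have hΩ : IsGalois ℚ (AlgebraicClosure ℚ) := GRE_transfer _ _ (GRE_galois ℚ)
  exact GRE_fin (Ω := AlgebraicClosure ℚ) E D hD

end Pool.Agent.LB
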